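import Mathlib

/-!
# The space `<κ-□^{κ⁺} κ` is never metanormal

For every infinite cardinal `κ` (regular or not, no cardinal arithmetic assumed) the
`<κ`-box power of `κ⁺` many copies of the discrete space `κ` is not metanormal.
-/

open Set Cardinal

namespace Pool.Agent.Results.MP_4cb3df_gt.NotMetanormal

universe u

/-- `E(z ↾ D)`: all functions that agree with `z` on `D`. -/
def cyl {I K : Type u} (D : Set I) (z : I → K) : Set (I → K) := {x | ∀ i ∈ D, x i = z i}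

/-- The `<κ`-box topology on `I → K` (`K` discrete): the sets `E(x ↾ D)`, `|D| < κ`, form a
neighbourhood base at `x`. -/
def boxTop (κ : Cardinal.{u}) (hκ : ℵ₀ ≤ κ) (I K : Type u) : TopologicalSpace (I → K) where
  IsOpen U := ∀ x ∈ U, ∃ D : Set I, #D < κ ∧ cyl D x ⊆ U
  isOpen_univ := fun x _ =>
    ⟨∅, by simpa using lt_of_lt_of_le aleph0_pos hκ, subset_univ _⟩
  isOpen_inter := fun U V hU hV x hx => by
    obtain ⟨D, hD, hDU⟩ := hU x hx.1
    obtain ⟨E, hE, hEV⟩ := hV x hx.2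
    exact ⟨D ∪ E, lt_of_le_of_lt (mk_union_le D E) (add_lt_of_lt hκ hD hE), fun y hy =>
      ⟨hDU fun i hi => hy i (Or.inl hi), hEV fun i hi => hy i (Or.inr hi)⟩⟩
  isOpen_sUnion := by
    rintro A hA x ⟨U, hU, hxU⟩
    obtain ⟨D, hD, hDU⟩ := hA U hU x hxU
    exact ⟨D, hD, hDU.trans (subset_sUnion_of_mem hU)⟩

/-- A sequence of sets is discrete if every point has a neighbourhood meeting at most one of
them. -/
def DiscreteSeq {X : Type u} [TopologicalSpace X] (F : ℕ → Set X) : Prop :=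
  ∀ x : X, ∃ V : Set X, IsOpen V ∧ x ∈ V ∧ ∀ m n : ℕ, (V ∩ F m).Nonempty → (V ∩ F n).Nonempty →
    m = n

/-- `X` is metanormal: every discrete sequence of closed sets has a point-finite open
expansion. -/
def Metanormal (X : Type u) [TopologicalSpace X] : Prop :=
  ∀ F : ℕ → Set X, (∀ n, IsClosed (F n)) → DiscreteSeq F →
    ∃ U : ℕ → Set X, (∀ n, IsOpen (U n) ∧ F n ⊆ U n) ∧ ∀ x : X, {n | x ∈ U n}.Finite

section key

variable {I K : Type u}

/-- points extending the partial function with graph `G` -/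
def ext (G : Set (I × K)) : Set (I → K) := {x | ∀ p ∈ G, x p.1 = p.2}

/-- `P'` -/
def PP (κ : Cardinal.{u}) (U : Set (I → K)) (G : Set (I × K)) : Prop :=
  ∀ Γ : Set I, #Γ ≤ κ → ∃ (B : Set I) (q : I → K), Disjoint B Γ ∧ #B ≤ κ ∧
    ext G ∩ cyl B q ⊆ U

/-- a witness for the failure of `P'` -/
def Wit (κ : Cardinal.{u}) (U : Set (I → K)) (G : Set (I × K)) (Γ : Set I) : Prop :=
  #Γ ≤ κ ∧ ∀ (B : Set I) (q : I → K), Disjoint B Γ → #B ≤ κ → ¬ (ext G ∩ cyl B q ⊆ U)

theorem exists_wit {κ : Cardinal.{u}} {U : Set (I → K)} {G : Set (I × K)} (h : ¬ PP κ U G) :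
    ∃ Γ, Wit κ U G Γ := by
  unfold PP at h
  push Not at h
  obtain ⟨Γ, h1, h2⟩ := h
  exact ⟨Γ, h1, h2⟩

theorem PP_mono {κ : Cardinal.{u}} {U : Set (I → K)} {G G' : Set (I × K)} (h : PP κ U G)
    (hG : G ⊆ G') : PP κ U G' := by
  intro Γ hΓ
  obtain ⟨B, q, h1, h2, h3⟩ := h Γ hΓ
  exact ⟨B, q, h1, h2, fun x hx => h3 ⟨fun p hp => hx.1 p (hG hp), hx.2⟩⟩

open Classical in
/-- chosen witness -/
noncomputable def wit (κ : Cardinal.{u}) (U : Set (I → K)) (G : Set (I × K)) : Set I :=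
  if h : ∃ Γ, Wit κ U G Γ then h.choose else ∅

theorem wit_card (κ : Cardinal.{u}) (U : Set (I → K)) (G : Set (I × K)) : #(wit κ U G) ≤ κ := by
  unfold wit
  split_ifs with h
  · exact h.choose_spec.1
  · simp

theorem wit_spec {κ : Cardinal.{u}} {U : Set (I → K)} {G : Set (I × K)} (h : ¬ PP κ U G)
    {B : Set I} {q : I → K} (hB : Disjoint B (wit κ U G)) (hBc : #B ≤ κ) :
    ¬ (ext G ∩ cyl B q ⊆ U) := by
  have h' := exists_wit h
  have hw : wit κ U G = h'.choose := dif_pos h'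
  rw [hw] at hB
  exact h'.choose_spec.2 B q hB hBc

/-- union of the witnesses for all `n` -/
noncomputable def wits (κ : Cardinal.{u}) (U : ℕ → Set (I → K)) (G : Set (I × K)) : Set I :=
  ⋃ n, wit κ (U n) G

theorem mk_iUnion_nat_le {κ : Cardinal.{u}} (hκ : ℵ₀ ≤ κ) {α : Type u} (f : ℕ → Set α)
    (hf : ∀ n, #(f n) ≤ κ) : #(⋃ n, f n : Set α) ≤ κ := by
  have h1 : (⋃ n, f n) = ⋃ n : ULift.{u} ℕ, f n.down := by
    ext x
    simp only [mem_iUnion]
    constructor
    · rintro ⟨n, hn⟩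
      exact ⟨⟨n⟩, hn⟩
    · rintro ⟨n, hn⟩
      exact ⟨n.down, hn⟩
  rw [h1]
  refine (mk_iUnion_le _).trans ?_
  have h2 : #(ULift.{u} ℕ) ≤ κ := by simpa using hκ
  calc #(ULift.{u} ℕ) * ⨆ n : ULift.{u} ℕ, #(f n.down) ≤ κ * κ :=
        mul_le_mul' h2 (ciSup_le' fun n => hf n.down)
    _ = κ := mul_eq_self hκ

theorem mk_iUnion_K_le {κ : Cardinal.{u}} (hκ : ℵ₀ ≤ κ) {α K : Type u} (hK : #K = κ)
    (f : K → Set α) (hf : ∀ n, #(f n) ≤ κ) : #(⋃ n, f n : Set α) ≤ κ := by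
  refine (mk_iUnion_le _).trans ?_
  calc #K * ⨆ n : K, #(f n) ≤ κ * κ := mul_le_mul' hK.le (ciSup_le' fun n => hf n)
    _ = κ := mul_eq_self hκ

theorem wits_card {κ : Cardinal.{u}} (hκ : ℵ₀ ≤ κ) (U : ℕ → Set (I → K)) (G : Set (I × K)) :
    #(wits κ U G) ≤ κ :=
  mk_iUnion_nat_le hκ _ fun n => wit_card κ (U n) G

open Classical in
/-- an injection of a small set into `K` -/
noncomputable def inj [Nonempty K] (S : Set I) : I → K :=
  if h : ∃ f : I → K, Set.InjOn f S then h.choose else fun _ => Classical.arbitrary K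

theorem inj_injOn [Nonempty K] {S : Set I} (hS : #S ≤ #K) :
    Set.InjOn (inj (K := K) S) S := by
  classical
  have h : ∃ f : I → K, Set.InjOn f S := by
    obtain ⟨g⟩ := Cardinal.le_def _ _ |>.1 hS
    refine ⟨fun i => if h : i ∈ S then g ⟨i, h⟩ else Classical.arbitrary K, ?_⟩
    intro a ha b hb hab
    simp only [ha, hb, dite_true] at hab
    exact congrArg Subtype.val (g.injective hab)
  have hw : inj (K := K) S = h.choose := dif_pos h
  rw [hw]
  exact h.choose_spec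

/-- the new part of the partial function at stage `ξ` -/
noncomputable def stepG [Nonempty K] (κ : Cardinal.{u}) (U : ℕ → Set (I → K)) (e : K × K → K)
    (ξ : K) (G : Set (I × K)) : Set (I × K) :=
  {p | p.1 ∈ wits κ U G ∧ p.1 ∉ Prod.fst '' G ∧ p.2 = e (ξ, inj (wits κ U G) p.1)}

theorem exists_rec (F : K → Set (I × K) → Set (I × K)) (r : K → K → Prop)
    (wf : WellFounded r) : ∃ g : K → Set (I × K),
      ∀ ξ, g ξ = F ξ (⋃ η, ⋃ (_ : r η ξ), g η) := by
  refine ⟨wf.fix fun ξ rec => F ξ (⋃ η, ⋃ (h : r η ξ), rec η h), fun ξ => ?_⟩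
  exact wf.fix_eq _ ξ

theorem key {κ : Cardinal.{u}} (hκ : ℵ₀ ≤ κ) (hK : #K = κ) (U : ℕ → Set (I → K)) (c : ℕ → K)
    (hU : ∀ n, ∀ x : I → K, (∀ i j, i ≠ j → x i = x j → x i = c n) →
      ∃ A : Set I, #A < κ ∧ cyl A x ⊆ U n) : ∃ x, ∀ n, x ∈ U n := by
  classical
  have : Nonempty K := ⟨c 0⟩
  have hmul : #(K × K) = #K := by
    rw [mk_prod, lift_id, hK, mul_eq_self hκ]
  obtain ⟨e⟩ := Cardinal.eq.1 hmul
  let r : K → K → Prop := WellOrderingRel
  have hr : IsWellOrder K r := WellOrderingRel.isWellOrder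
  obtain ⟨g, hg⟩ := exists_rec (stepG κ U e) r hr.wf
  set G : K → Set (I × K) := fun ξ => ⋃ η, ⋃ (_ : r η ξ), g η with hGdef
  have hg' : ∀ ξ, g ξ = stepG κ U e ξ (G ξ) := hg
  have hgmem : ∀ ξ p, p ∈ g ξ ↔ (p.1 ∈ wits κ U (G ξ) ∧ p.1 ∉ Prod.fst '' (G ξ) ∧
      p.2 = e (ξ, inj (wits κ U (G ξ)) p.1)) := by
    intro ξ p
    rw [hg' ξ]
    rfl
  have hsub : ∀ {η ξ}, r η ξ → g η ⊆ G ξ := fun {η ξ} h =>
    subset_iUnion_of_subset η (subset_iUnion_of_subset h (Subset.refl _))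
  -- distinct stages have disjoint domains
  have hdisj : ∀ ξ η p q, p ∈ g ξ → q ∈ g η → p.1 = q.1 → ξ = η := by
    intro ξ η p q hp hq hpq
    rcases trichotomous_of r ξ η with h | h | h
    · exfalso
      exact ((hgmem η q).1 hq).2.1 ⟨p, hsub h hp, hpq⟩
    · exact h
    · exfalso
      exact ((hgmem ξ p).1 hp).2.1 ⟨q, hsub h hq, hpq.symm⟩
  set Z : Set (I × K) := ⋃ ξ, g ξ with hZ
  have hfun : ∀ p ∈ Z, ∀ q ∈ Z, p.1 = q.1 → p.2 = q.2 := by
    intro p hp q hq hpq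
    obtain ⟨ξ, hξ⟩ := mem_iUnion.1 hp
    obtain ⟨η, hη⟩ := mem_iUnion.1 hq
    have := hdisj ξ η p q hξ hη hpq
    subst this
    rw [((hgmem ξ p).1 hξ).2.2, ((hgmem ξ q).1 hη).2.2, hpq]
  have hinj : ∀ p ∈ Z, ∀ q ∈ Z, p.2 = q.2 → p.1 = q.1 := by
    intro p hp q hq hpq
    obtain ⟨ξ, hξ⟩ := mem_iUnion.1 hp
    obtain ⟨η, hη⟩ := mem_iUnion.1 hq
    have h1 := (hgmem ξ p).1 hξ
    have h2 := (hgmem η q).1 hη
    rw [h1.2.2, h2.2.2] at hpq
    have h3 := e.injective hpq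
    have h4 : ξ = η := congrArg Prod.fst h3
    subst h4
    have h5 : inj (wits κ U (G ξ)) p.1 = inj (wits κ U (G ξ)) q.1 := congrArg Prod.snd h3
    exact inj_injOn ((wits_card hκ U (G ξ)).trans hK.ge) h1.1 h2.1 h5
  have hdomcard : #(Prod.fst '' Z : Set I) ≤ κ := by
    have h1 : (Prod.fst '' Z : Set I) ⊆ ⋃ ξ, wits κ U (G ξ) := by
      rintro _ ⟨p, hp, rfl⟩
      obtain ⟨ξ, hξ⟩ := mem_iUnion.1 hp
      exact mem_iUnion.2 ⟨ξ, ((hgmem ξ p).1 hξ).1⟩
    exact (mk_le_mk_of_subset h1).trans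
      (mk_iUnion_K_le hκ hK _ fun ξ => wits_card hκ U (G ξ))
  -- the total function `t n`
  have ht : ∀ a : K, ∃ t : I → K, (∀ p ∈ Z, t p.1 = p.2) ∧ ∀ i, i ∉ Prod.fst '' Z → t i = a := by
    intro a
    refine ⟨fun i => if h : ∃ b, (i, b) ∈ Z then h.choose else a, ?_, ?_⟩
    · intro p hp
      have h : ∃ b, (p.1, b) ∈ Z := ⟨p.2, hp⟩
      simp only [h, dite_true]
      exact hfun _ h.choose_spec _ hp rfl
    · intro i hi
      have h : ¬ ∃ b, (i, b) ∈ Z := fun ⟨b, hb⟩ => hi ⟨(i, b), hb, rfl⟩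
      simp only [h, dite_false]
  have hP : ∀ n, PP κ (U n) Z := by
    intro n
    obtain ⟨t, ht1, ht2⟩ := ht (c n)
    obtain ⟨A, hA, hAU⟩ := hU n t (by
      intro i j hij htij
      by_cases hi : i ∈ Prod.fst '' Z
      · by_cases hj : j ∈ Prod.fst '' Z
        · exfalso
          obtain ⟨p, hp, rfl⟩ := hi
          obtain ⟨q, hq, rfl⟩ := hj
          rw [ht1 p hp, ht1 q hq] at htij
          exact hij (hinj p hp q hq htij)
        · rw [htij, ht2 j hj]
      · exact ht2 i hi)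
    by_contra hcon
    have hall : ∀ ξ, ¬ PP κ (U n) (G ξ) := by
      intro ξ h
      apply hcon
      refine PP_mono h ?_
      exact iUnion_subset fun η => iUnion_subset fun _ => subset_iUnion g η
    have hmeet : ∀ ξ, ∃ i ∈ A, ∃ p ∈ g ξ, p.1 = i := by
      intro ξ
      by_contra hno
      push Not at hno
      refine wit_spec (hall ξ) (B := A \ (Prod.fst '' (G ξ) ∪ wits κ U (G ξ))) (q := t)
        ?_ ((mk_le_mk_of_subset sdiff_subset).trans hA.le) ?_
      · rw [Set.disjoint_left]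
        intro i hi hi'
        exact hi.2 (Or.inr (mem_iUnion.2 ⟨n, hi'⟩))
      · intro x hx
        apply hAU
        intro i hi
        by_cases h1 : i ∈ Prod.fst '' (G ξ)
        · obtain ⟨p, hp, rfl⟩ := h1
          rw [hx.1 p hp, ht1 p]
          obtain ⟨η, hη⟩ := mem_iUnion.1 hp
          obtain ⟨_, hη⟩ := mem_iUnion.1 hη
          exact mem_iUnion.2 ⟨η, hη⟩
        · by_cases h2 : i ∈ wits κ U (G ξ)
          · exfalso
            exact hno i hi (i, e (ξ, inj (wits κ U (G ξ)) i))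
              ((hgmem ξ _).2 ⟨h2, h1, rfl⟩) rfl
          · exact hx.2 i ⟨hi, fun h => h.elim h1 h2⟩
    choose f hfA p hp hpf using hmeet
    have hle : #K ≤ #A := by
      refine mk_le_of_injective (f := fun ξ => (⟨f ξ, hfA ξ⟩ : A)) ?_
      intro ξ η hξη
      have h1 : f ξ = f η := congrArg Subtype.val hξη
      exact hdisj ξ η (p ξ) (p η) (hp ξ) (hp η) (by rw [hpf, hpf, h1])
    rw [hK] at hle
    exact absurd hA (not_lt.2 hle)
  -- choose the common point
  choose B q hB1 hB2 hB3 using fun n (Γ : {Γ : Set I // #Γ ≤ κ}) => hP n Γ.1 Γ.2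
  let s : ℕ → {Γ : Set I // #Γ ≤ κ} := fun n => Nat.rec ⟨Prod.fst '' Z, hdomcard⟩
    (fun n Γ => ⟨Γ.1 ∪ B n Γ, (mk_union_le _ _).trans
      ((add_le_add Γ.2 (hB2 n Γ)).trans (add_eq_self hκ).le)⟩) n
  have hs0 : (s 0).1 = Prod.fst '' Z := rfl
  have hs1 : ∀ n, (s (n + 1)).1 = (s n).1 ∪ B n (s n) := fun n => rfl
  have hsm : Monotone fun n => (s n).1 := by
    refine monotone_nat_of_le_succ fun n => ?_
    change (s n).1 ⊆ (s (n + 1)).1
    rw [hs1]
    exact subset_union_left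
  have hBs : ∀ m n, m < n → B m (s m) ⊆ (s n).1 := by
    intro m n hmn
    refine subset_trans ?_ (hsm (Nat.succ_le_of_lt hmn))
    change B m (s m) ⊆ (s (m + 1)).1
    rw [hs1]
    exact subset_union_right
  have hBd : ∀ m n i, i ∈ B m (s m) → i ∈ B n (s n) → m = n := by
    intro m n i hm hn
    rcases lt_trichotomy m n with h | h | h
    · exfalso
      exact Set.disjoint_left.1 (hB1 n (s n)) hn (hBs m n h hm)
    · exact h
    · exfalso
      exact Set.disjoint_left.1 (hB1 m (s m)) hm (hBs n m h hn)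
  obtain ⟨t, ht1, -⟩ := ht (c 0)
  let x : I → K := fun i => if i ∈ Prod.fst '' Z then t i else
    if h : ∃ n, i ∈ B n (s n) then q h.choose (s h.choose) i else c 0
  refine ⟨x, fun n => hB3 n (s n) ⟨?_, ?_⟩⟩
  · intro p hp
    have h1 : p.1 ∈ Prod.fst '' Z := ⟨p, hp, rfl⟩
    simp only [x, h1, if_true]
    exact ht1 p hp
  · intro i hi
    have h1 : i ∉ Prod.fst '' Z := by
      intro h
      exact Set.disjoint_left.1 (hB1 n (s n)) hi (hsm (Nat.zero_le n) h)
    have h2 : ∃ n, i ∈ B n (s n) := ⟨n, hi⟩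
    simp only [x, h1, h2, if_false, dite_true]
    have h3 : h2.choose = n := hBd _ _ i h2.choose_spec hi
    rw [h3]

end key

/-- **Answer to Q1 (yes, the hypothesis is dispensable).**  For every infinite cardinal `κ` and
every index set `I` with more than `κ` elements (in particular `|I| = κ⁺`), the `<κ`-box power
`I → K` of a discrete space `K` of size `κ` is not metanormal. -/
theorem result (κ : Cardinal.{u}) (hκ : ℵ₀ ≤ κ) (I K : Type u) (hI : κ < #I) (hK : #K = κ) :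
    ¬ @Metanormal (I → K) (boxTop κ hκ I K) := by
  classical
  intro hmeta
  let _ : TopologicalSpace (I → K) := boxTop κ hκ I K
  have : Infinite K := Cardinal.infinite_iff.2 (hK ▸ hκ)
  obtain ⟨c⟩ : Nonempty (ℕ ↪ K) := ⟨Infinite.natEmbedding K⟩
  set F : ℕ → Set (I → K) := fun n => {x | ∀ i j, i ≠ j → x i = x j → x i = c n} with hF
  have hpair : ∀ i j : I, #({i, j} : Set I) < κ := fun i j =>
    lt_of_lt_of_le (Cardinal.lt_aleph0_iff_set_finite.2 (Set.toFinite _)) hκ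
  have hopen : ∀ (x : I → K) (i j : I), IsOpen (cyl {i, j} x) := by
    intro x i j y hy
    refine ⟨{i, j}, hpair i j, fun w hw k hk => ?_⟩
    rw [hw k hk, hy k hk]
  have hclosed : ∀ n, IsClosed (F n) := by
    intro n
    rw [← isOpen_compl_iff, isOpen_iff_forall_mem_open]
    intro x hx
    have hx' : ¬ ∀ i j, i ≠ j → x i = x j → x i = c n := hx
    push Not at hx'
    obtain ⟨i, j, hij, h1, h2⟩ := hx'
    refine ⟨cyl {i, j} x, ?_, hopen x i j, fun k _ => rfl⟩
    intro y hy hyF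
    have hyi : y i = x i := hy i (by simp)
    have hyj : y j = x j := hy j (by simp)
    apply h2
    rw [← hyi]
    exact hyF i j hij (by rw [hyi, hyj, h1])
  have hdiscr : DiscreteSeq F := by
    intro x
    have hninj : ¬ Function.Injective x := by
      intro h
      have := mk_le_of_injective h
      rw [hK] at this
      exact absurd hI (not_lt.2 this)
    unfold Function.Injective at hninj
    push Not at hninj
    obtain ⟨i, j, h1, hij⟩ := hninj
    refine ⟨cyl {i, j} x, hopen x i j, fun k _ => rfl, ?_⟩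
    rintro m n ⟨y, hy, hyF⟩ ⟨w, hw, hwF⟩
    have hyi : y i = x i := hy i (by simp)
    have hyj : y j = x j := hy j (by simp)
    have hwi : w i = x i := hw i (by simp)
    have hwj : w j = x j := hw j (by simp)
    have e1 : y i = c m := hyF i j hij (by rw [hyi, hyj, h1])
    have e2 : w i = c n := hwF i j hij (by rw [hwi, hwj, h1])
    apply c.injective
    rw [← e1, ← e2, hyi, hwi]
  obtain ⟨U, hU1, hU2⟩ := hmeta F hclosed hdiscr
  obtain ⟨x, hx⟩ := key hκ hK U c (fun n x hx => (hU1 n).1 x ((hU1 n).2 hx))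
  have : {n | x ∈ U n} = Set.univ := Set.eq_univ_of_forall hx
  have hfin := hU2 x
  rw [this] at hfin
  exact Set.infinite_univ hfin

end Pool.Agent.Results.MP_4cb3df_gt.NotMetanormal
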